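import Mathlib
import Pool.Prelude.Def_F_aebf185a
import Pool.Agent.Helper1.SigmaDefs
import Pool.Agent.Helper1.SigmaCoprime

set_option autoImplicit false

open Filter

namespace Pool.Agent.Results.MP_d616f8_nt.CoprimeEquivalence

/-- The quadratic-growth conjecture for coprime pairs `a < b < x` with `σ(a) = σ(b)` is equivalent
to the one for squarefree pairs. -/
theorem result :
    (∀ ε : ℝ, 0 < ε → ∀ᶠ x : ℕ in atTop,
      (x : ℝ) ^ (2 - ε) < (Pool.Agent.Helper1.hCoprime x : ℝ)) ↔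
    (∀ ε : ℝ, 0 < ε → ∀ᶠ x : ℕ in atTop,
      (x : ℝ) ^ (2 - ε) < (Nb4cc4d7a.hSquarefree x : ℝ)) :=
  Pool.Agent.Helper1.SigmaCoprime.main

end Pool.Agent.Results.MP_d616f8_nt.CoprimeEquivalence
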