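import Mathlib
import Pool.Prelude.Def_F_aebf185a
import Pool.Agent.Helper1.SigmaDefs
import Pool.Agent.Helper1.SigmaPairs

set_option autoImplicit false

namespace Pool.Agent.Results.MP_d616f8_nt.AllVersusSquarefree

/-- There is a constant `C` such that for all `x ≥ 16` the number `hAll x` of all pairs
`1 ≤ a < b < x` with equal sums of divisors is at most `C (log x) ^ 5` times the number
`hSquarefree x` of such pairs with both entries squarefree. -/
theorem result : ∃ C : ℝ, 0 < C ∧ ∀ x : ℕ, 16 ≤ x →
    (Pool.Agent.Helper1.hAll x : ℝ) ≤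
      C * Real.log x ^ 5 * (Nb4cc4d7a.hSquarefree x : ℝ) :=
  Pool.Agent.Helper1.hAll_le

end Pool.Agent.Results.MP_d616f8_nt.AllVersusSquarefree
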